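import Pool.Agent.H69.MQ.Stm

set_option autoImplicit false

namespace Pool.Agent.H32.MQ
open Pool.Agent.H69.MQ Finset

theorem prod86 (n : ℕ) (j : Fin n) : ∏ i : Fin n, (if i = j then 8 else 6) = 8 * 6 ^ (n - 1) := by
  rw [← Finset.mul_prod_erase univ _ (mem_univ j), if_pos rfl]
  congr 1
  rw [Finset.prod_congr rfl (g := fun _ => 6)]
  · rw [prod_const, card_erase_of_mem (mem_univ j), card_univ, Fintype.card_fin]
  · intro i hi
    rw [if_neg (ne_of_mem_erase hi)]

theorem t_BAD : S_BAD := by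
  intro n hn
  classical
  let B : Fin n → Finset ((Fin n → Bool) × (Fin n → Bool) × (Fin n → Bool)) := fun j =>
    univ.filter fun t => ∀ i, i ≠ j → ¬ (t.1 i = t.2.2 i ∧ t.2.1 i ≠ t.1 i)
  let good : Finset (Bool × Bool × Bool) :=
    univ.filter fun p => ¬ (p.1 = p.2.2 ∧ p.2.1 ≠ p.1)
  have hgood : good.card = 6 := by decide
  have hB : ∀ j, (B j).card ≤ 8 * 6 ^ (n - 1) := by
    intro j
    have h1 : (B j).card ≤ (Fintype.piFinset fun i : Fin n =>
        if i = j then (univ : Finset (Bool × Bool × Bool)) else good).card := by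
      apply Finset.card_le_card_of_injOn (fun t i => (t.1 i, t.2.1 i, t.2.2 i))
      · intro t ht
        have ht' := (mem_filter.1 (Finset.mem_coe.1 ht)).2
        rw [Finset.mem_coe, Fintype.mem_piFinset]
        intro i
        by_cases hij : i = j
        · rw [if_pos hij]; exact mem_univ _
        · rw [if_neg hij]
          exact mem_filter.2 ⟨mem_univ _, ht' i hij⟩
      · intro t _ t' _ h
        have h2 : ∀ i, t.1 i = t'.1 i ∧ t.2.1 i = t'.2.1 i ∧ t.2.2 i = t'.2.2 i := by
          intro i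
          have := congrFun h i
          simpa using this
        ext i
        · rw [(h2 i).1]
        · rw [(h2 i).2.1]
        · rw [(h2 i).2.2]
    refine h1.trans (le_of_eq ?_)
    rw [Fintype.card_piFinset, ← prod86 n j]
    refine prod_congr rfl fun i _ => ?_
    split_ifs
    · decide
    · exact hgood
  have hsub : (univ.filter fun t : (Fin n → Bool) × (Fin n → Bool) × (Fin n → Bool) =>
      (univ.filter fun i => t.1 i = t.2.2 i ∧ t.2.1 i ≠ t.1 i).card ≤ 1) ⊆ univ.biUnion B := by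
    intro t ht
    have ht' := (mem_filter.1 ht).2
    rw [mem_biUnion]
    rcases (univ.filter fun i => t.1 i = t.2.2 i ∧ t.2.1 i ≠ t.1 i).eq_empty_or_nonempty with h | ⟨j, hj⟩
    · refine ⟨⟨0, hn⟩, mem_univ _, mem_filter.2 ⟨mem_univ _, fun i _ hi => ?_⟩⟩
      have : i ∈ (univ.filter fun i => t.1 i = t.2.2 i ∧ t.2.1 i ≠ t.1 i) := mem_filter.2 ⟨mem_univ _, hi⟩
      rw [h] at this
      exact absurd this (notMem_empty _)
    · refine ⟨j, mem_univ _, mem_filter.2 ⟨mem_univ _, fun i hij hi => hij ?_⟩⟩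
      exact Finset.card_le_one.1 ht' i (mem_filter.2 ⟨mem_univ _, hi⟩) j hj
  calc _ ≤ (univ.biUnion B).card := card_le_card hsub
    _ ≤ ∑ j : Fin n, (B j).card := card_biUnion_le
    _ ≤ ∑ j : Fin n, 8 * 6 ^ (n - 1) := sum_le_sum fun j _ => hB j
    _ = n * (8 * 6 ^ (n - 1)) := by rw [sum_const, card_univ, Fintype.card_fin, smul_eq_mul]

end Pool.Agent.H32.MQ
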