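import Pool.Agent.H69.MQ.Stm

set_option autoImplicit false

namespace Pool.Agent.H32.MQ
open Pool.Agent.H69.MQ Finset

/-- partial flip -/
def mm {n : ℕ} (i : Fin n) (T : Finset (Fin n → Bool)) (x : Fin n → Bool) : Fin n → Bool :=
  if x ∈ T then H69.MQ.flip i x else x

theorem mm_ne {n : ℕ} (i : Fin n) (T : Finset (Fin n → Bool)) (x : Fin n → Bool) (j : Fin n)
    (h : j ≠ i) : mm i T x j = x j := by
  unfold mm H69.MQ.flip
  split_ifs
  · rw [Function.update_of_ne h]
  · rfl

theorem flip_ne {n : ℕ} (i : Fin n) (x : Fin n → Bool) : H69.MQ.flip i x ≠ x := by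
  intro h
  have := congrFun h i
  simp [H69.MQ.flip] at this

theorem flip_adj {n : ℕ} (i : Fin n) (x : Fin n → Bool) : (cube n).Adj x (H69.MQ.flip i x) := by
  show (univ.filter fun j => x j ≠ H69.MQ.flip i x j).card = 1
  rw [Finset.card_eq_one]
  refine ⟨i, ?_⟩
  ext j
  simp only [mem_filter, mem_univ, true_and, mem_singleton]
  constructor
  · intro h
    by_contra hj
    exact h (by rw [H69.MQ.flip, Function.update_of_ne hj])
  · rintro rfl
    simp [H69.MQ.flip]

theorem mm_inj {n : ℕ} (i : Fin n) (S T : Finset (Fin n → Bool)) (hS : Rob S) (b c : Fin n → Bool)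
    (hb : b ∈ S) (hc : c ∈ S) (h : mm i T b = mm i T c) : b = c := by
  by_contra hne
  obtain ⟨j, hj, hji⟩ := Finset.exists_mem_ne (lt_of_lt_of_le one_lt_two (hS.1 b hb c hc hne)) i
  rw [mem_filter] at hj
  exact hj.2 (by rw [← mm_ne i T b j hji, ← mm_ne i T c j hji, h])

theorem t_FLP (hB : S_BTW) : S_FLP := by
  intro n S i hS
  have main : ∀ T : Finset (Fin n → Bool), T ⊆ S →
      Relation.ReflTransGen (Legal (cube n)) S (S.image (mm i T)) := by
    intro T
    induction T using Finset.induction_on with
    | empty =>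
      intro _
      have : S.image (mm i ∅) = S := by
        have h : mm i (∅ : Finset (Fin n → Bool)) = id := by
          funext x; simp [mm]
        rw [h, image_id]
      rw [this]
    | insert a T haT ih =>
      intro hT
      have haS : a ∈ S := hT (mem_insert_self _ _)
      refine (ih ((subset_insert _ _).trans hT)).tail ?_
      have e1 : mm i T a = a := by simp [mm, haT]
      have e2 : mm i (insert a T) a = H69.MQ.flip i a := by simp [mm]
      have e3 : ∀ b, b ≠ a → mm i (insert a T) b = mm i T b := by
        intro b hb; simp [mm, hb]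
      refine ⟨a, ?_, H69.MQ.flip i a, ?_, flip_adj i a, ?_, ?_⟩
      · exact mem_image.2 ⟨a, haS, e1⟩
      · intro hm
        obtain ⟨b, hb, hbe⟩ := mem_image.1 hm
        by_cases hba : b = a
        · subst hba
          rw [e1] at hbe
          exact flip_ne i _ hbe.symm
        · rw [← e3 b hba, ← e2] at hbe
          exact hba (mm_inj i S _ hS b a hb haS hbe)
      · ext x
        simp only [mem_insert, mem_erase, mem_image]
        constructor
        · rintro ⟨b, hb, rfl⟩
          by_cases hba : b = a
          · subst hba; left; exact e2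
          · right
            rw [e3 b hba]
            refine ⟨fun h => hba ?_, b, hb, rfl⟩
            rw [← e1] at h
            exact mm_inj i S T hS b a hb haS (by rw [h, e1])
        · rintro (rfl | ⟨hx, b, hb, rfl⟩)
          · exact ⟨a, haS, e2⟩
          · have hba : b ≠ a := by
              rintro rfl
              exact hx e1
            exact ⟨b, hb, e3 b hba⟩
      · intro x hx y hy z hz hxy hyz hxz
        obtain ⟨x0, hx0, rfl⟩ := mem_image.1 hx
        obtain ⟨y0, hy0, rfl⟩ := mem_image.1 hy
        obtain ⟨z0, hz0, rfl⟩ := mem_image.1 hz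
        rw [hB]
        have h := hS.2 x0 hx0 y0 hy0 z0 hz0 (fun h => hxy (by rw [h])) (fun h => hyz (by rw [h]))
          (fun h => hxz (by rw [h]))
        obtain ⟨j, hj, hji⟩ := Finset.exists_mem_ne (lt_of_lt_of_le one_lt_two h) i
        rw [mem_filter] at hj
        refine ⟨j, ?_, ?_⟩
        · rw [mm_ne _ _ _ _ hji, mm_ne _ _ _ _ hji]; exact hj.2.1
        · rw [mm_ne _ _ _ _ hji, mm_ne _ _ _ _ hji]; exact hj.2.2
  have h := main S (Subset.refl _)
  have e : S.image (mm i S) = S.image (H69.MQ.flip i) := by
    apply image_congr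
    intro x hx
    simp [mm, Finset.mem_coe.1 hx]
  rwa [e] at h

end Pool.Agent.H32.MQ
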